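import Mathlib
import Pool.Agent.P8H67.KH.Fin

/-!
# Square-root convexity fails for the k-Hessian torsion problem (Q2 of MP_d9fde0_an)

`n = 12`, `k = 11`. There is a bounded convex domain with smooth boundary and positive principal
curvatures such that the `k`-admissible solution `u` of `S_k (D² u) = 1`, `u = 0` on the boundary,
has `-√(-u)` not convex.

The domain is very long in the direction `x`: it is
`{(x, y) : exp (5000 Θ(e x, y)) + K (e x)⁴ < 1}`, `y ∈ ℝ^11`, `e` small, with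
`Θ(τ, y) = (|y|² - 1)/2 - τ F(y) + τ² q(y) / 2`, `F(y) = (10 y_1² - |y'|²)/2` and a suitable quartic
polynomial `q`. In the limit `e → 0` the equation becomes the Monge-Ampere equation on the slices,
and `Θ` solves it up to order two in `τ` with a favourable sign (barriers from above and below).
The square-root convexity of `Θ` at `(0, y)` is equivalent to `q - |∇F|² + F² ≥ 0`; this fails at
`y = (19/20, 0, …, 0)`, although the level set `Θ = 0` is uniformly convex.
-/

open Matrix

namespace Pool.Agent.Results.MP_d9fde0_an.TorsionNotSqrtConvex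

/-- `S_k(A)`: the `k`-th elementary symmetric function of the eigenvalues of the real symmetric
matrix `A` (the roots of the characteristic polynomial, with multiplicity). -/
noncomputable def S {n : ℕ} (k : ℕ) (A : Matrix (Fin n) (Fin n) ℝ) : ℝ :=
  A.charpoly.roots.esymm k

/-- `Γ_k`: the symmetric matrices with `S_i(A) > 0` for `i = 1, …, k`. -/
def Gamma {n : ℕ} (k : ℕ) : Set (Matrix (Fin n) (Fin n) ℝ) :=
  {A | A.IsSymm ∧ ∀ i, 1 ≤ i → i ≤ k → 0 < S i A}

/-- The Hessian matrix `∂_i ∂_j u (x)`. -/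
noncomputable def Hess {n : ℕ} (u : EuclideanSpace ℝ (Fin n) → ℝ)
    (x : EuclideanSpace ℝ (Fin n)) : Matrix (Fin n) (Fin n) ℝ :=
  Matrix.of fun i j => fderiv ℝ (fun y => fderiv ℝ u y (EuclideanSpace.single j 1)) x
    (EuclideanSpace.single i 1)

/-- `u` is a `k`-admissible solution of (T): `u ∈ C²(Ω) ∩ C(closure Ω)`, `D² u ∈ Γ_k` and
`S_k (D² u) = 1` in `Ω`, `u = 0` on `∂Ω`. -/
structure IsSolutionT {n : ℕ} (k : ℕ) (Ω : Set (EuclideanSpace ℝ (Fin n)))
    (u : EuclideanSpace ℝ (Fin n) → ℝ) : Prop where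
  contDiffOn : ContDiffOn ℝ 2 u Ω
  continuousOn : ContinuousOn u (closure Ω)
  admissible : ∀ x ∈ Ω, Hess u x ∈ Gamma k
  equation : ∀ x ∈ Ω, S k (Hess u x) = 1
  boundary : ∀ x ∈ frontier Ω, u x = 0

/-- `Ω` is a bounded convex domain with `C^∞` boundary all of whose principal curvatures are
positive: near every boundary point `p` the domain is `{ρ < 0}` for a `C^∞` function `ρ` whose
gradient does not vanish at `p` and whose Hessian at `p` is positive definite on the tangent space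
`{v : ∇ρ(p) · v = 0}`. -/
structure IsSmoothUniformlyConvexDomain {n : ℕ} (Ω : Set (EuclideanSpace ℝ (Fin n))) : Prop where
  isOpen : IsOpen Ω
  nonempty : Ω.Nonempty
  isBounded : Bornology.IsBounded Ω
  convex : Convex ℝ Ω
  boundary : ∀ p ∈ frontier Ω, ∃ (U : Set (EuclideanSpace ℝ (Fin n)))
    (ρ : EuclideanSpace ℝ (Fin n) → ℝ), IsOpen U ∧ p ∈ U ∧ ContDiff ℝ (⊤ : ℕ∞) ρ ∧
    Ω ∩ U = {x ∈ U | ρ x < 0} ∧ fderiv ℝ ρ p ≠ 0 ∧
    ∀ v : EuclideanSpace ℝ (Fin n), v ≠ 0 → fderiv ℝ ρ p v = 0 →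
      0 < v.ofLp ⬝ᵥ (Hess ρ p *ᵥ v.ofLp)

/-- **Q2 of the problem is false.** For `n = 12` and `k = 11` there is a bounded convex domain `Ω`
with smooth boundary and positive principal curvatures (so that `S_{k-1}(κ) > 0` on `∂Ω`) such that
every `k`-admissible solution `u` of `S_k (D² u) = 1` in `Ω`, `u = 0` on `∂Ω`, has `-√(-u)` not
convex in `Ω`. -/
theorem result : ∃ Ω : Set (EuclideanSpace ℝ (Fin 12)), IsSmoothUniformlyConvexDomain Ω ∧
    ∀ u, IsSolutionT 11 Ω u → ¬ ConvexOn ℝ Ω (fun x => -Real.sqrt (-(u x))) := by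
  obtain ⟨Ω, h1, h2⟩ := Pool.Agent.P8H67.KH.main
  refine ⟨Ω, ⟨h1.isOpen, h1.nonempty, h1.isBounded, h1.convex, h1.boundary⟩, fun u hu => ?_⟩
  exact h2 u ⟨hu.contDiffOn, hu.continuousOn, hu.boundary,
    fun x hx => (hu.admissible x hx).2, hu.equation⟩

end Pool.Agent.Results.MP_d9fde0_an.TorsionNotSqrtConvex
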